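import Mathlib
import Pool.Agent.R821.NoMackey

/-!
# No metrizable precompact group topology on the integers is Mackey

Negative answer to Q1: there is no metrizable precompact Mackey group topology on `ℤ` at all, and so in
particular none without proper open subgroups. The definitions (`LocallyQuasiConvex`, `Compatible`,
`PrecompactTop`, `Mackey`) and the proof are in `Pool.Agent.R821.NoMackey`.
-/

set_option autoImplicit false

namespace Pool.Agent.Results.MP_44d3b9_gt.NoMetrizablePrecompactMackey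

open Pool.Agent.R821

/-- **Negative answer to Q1.** (1) There is no group topology on `ℤ` that is metrizable, precompact and
Mackey and has no proper open subgroup. (2) There is even no group topology on `ℤ` that is metrizable,
precompact and Mackey: every metrizable precompact locally quasi-convex group topology on `ℤ` has a
strictly finer locally quasi-convex Hausdorff group topology with the same continuous characters. -/
theorem result :
    (¬ ∃ τ : TopologicalSpace ℤ, @IsTopologicalAddGroup ℤ τ _ ∧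
      @TopologicalSpace.MetrizableSpace ℤ τ ∧ PrecompactTop τ ∧ Mackey τ ∧
      ∀ K : AddSubgroup ℤ, K ≠ ⊤ → ¬ @IsOpen ℤ τ (K : Set ℤ)) ∧
    (¬ ∃ τ : TopologicalSpace ℤ, @IsTopologicalAddGroup ℤ τ _ ∧
      @TopologicalSpace.MetrizableSpace ℤ τ ∧ PrecompactTop τ ∧ Mackey τ) ∧
    ∀ τ : TopologicalSpace ℤ, @IsTopologicalAddGroup ℤ τ _ →
      @TopologicalSpace.MetrizableSpace ℤ τ → PrecompactTop τ → LocallyQuasiConvex τ →
      ∃ σ : TopologicalSpace ℤ, @IsTopologicalAddGroup ℤ σ _ ∧ @T2Space ℤ σ ∧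
        LocallyQuasiConvex σ ∧ Compatible σ τ ∧ σ ≤ τ ∧ ¬ τ ≤ σ := by
  have h : ¬ ∃ τ : TopologicalSpace ℤ, @IsTopologicalAddGroup ℤ τ _ ∧
      @TopologicalSpace.MetrizableSpace ℤ τ ∧ PrecompactTop τ ∧ Mackey τ := by
    rintro ⟨τ, hτ, hmet, hp, hl, hM⟩
    obtain ⟨σ, hσ, hT2, hlσ, hc, -, hn⟩ := exists_finer τ hτ hmet hp hl
    exact hn (hM σ hσ hT2 hlσ hc)
  refine ⟨?_, h, fun τ hτ hmet hp hl => exists_finer τ hτ hmet hp hl⟩
  rintro ⟨τ, hτ, hmet, hp, hM, -⟩
  exact h ⟨τ, hτ, hmet, hp, hM⟩

end Pool.Agent.Results.MP_44d3b9_gt.NoMetrizablePrecompactMackey
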